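import Pool.Agent.MP_13e7a1_an.Cur.Smooth

/-!
The value of the five-term current on a test function as one integral.
-/

open scoped ContDiff Topology
open Set Metric MeasureTheory Filter

noncomputable section

namespace Pool.Agent.MP_13e7a1_an.Cur

section Point

variable {V : Type} [NormedAddCommGroup V] [NormedSpace ℝ V] {k : ℕ}

theorem proj_add (A : V →L[ℝ] V) (p : ℕ) (α β : Form V k) :
    proj A p (α + β) = proj A p α + proj A p β := by
  funext v
  simp only [proj, Pi.add_apply, mul_add, Finset.sum_add_distrib]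

theorem proj_split (A : V →L[ℝ] V) (α : Form V (0 + 1)) : proj A (0 + 1) α + proj A 0 α = α := by
  funext v
  have h1 : Finset.powersetCard (0 + 1) (Finset.univ : Finset (Fin (0 + 1))) = {{0}} := by decide
  have h2 : (Finset.univ : Finset (Finset (Fin (0 + 1)))) = {∅, {0}} := by decide
  have h3 : (∅ : Finset (Fin (0 + 1))) ≠ {0} := by decide
  simp only [proj, Pi.add_apply, h1, h2, Finset.powersetCard_zero, Finset.sum_singleton,
    Finset.sum_pair h3, Finset.prod_empty, Finset.prod_singleton, Finset.mem_singleton, if_true,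
    Finset.notMem_empty, if_false]
  ring

theorem Sm.diff {α : V → Form V k} {x : V} (h : Sm α x) (v : Fin k → V) :
    DifferentiableAt ℝ (fun y => α y v) x :=
  (Sm.app (g := id) (w := fun _ => v) h contDiffAt_id fun _ => contDiffAt_const).differentiableAt
    (by simp)

theorem extd_add {α β : V → Form V k} {x : V} (hα : Sm α x) (hβ : Sm β x) :
    extd (fun y => α y + β y) x = extd α x + extd β x := by
  funext v
  simp only [extd, Pi.add_apply, ← Finset.sum_add_distrib]
  refine Finset.sum_congr rfl fun j _ => ?_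
  rw [fderiv_fun_add (hα.diff _) (hβ.diff _), add_apply, mul_add]

theorem extd_extd {φ : V → ℝ} (hφ : ContDiff ℝ ∞ φ) (x : V) : extd (extd (form0 φ)) x = 0 := by
  funext v
  have hg : ContDiff ℝ ∞ fun y => (φ y : ℂ) := Complex.ofRealCLM.contDiff.comp hφ
  have h1 : DifferentiableAt ℝ (fderiv ℝ fun y => (φ y : ℂ)) x :=
    ((hg.fderiv_right (m := ∞) le_rfl).differentiable (by simp)) x
  have h2 : ∀ a b : V, fderiv ℝ (fun y => fderiv ℝ (fun y => (φ y : ℂ)) y a) x b =
      fderiv ℝ (fderiv ℝ fun y => (φ y : ℂ)) x b a := fun a b => by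
    rw [fderiv_clm_apply h1 (differentiableAt_const _)]
    simp
  have h3 := hg.contDiffAt.isSymmSndFDerivAt (x := x) (by simp; norm_cast) (v 0) (v 1)
  simp only [extd, form0, Fin.sum_univ_succ, Fin.sum_univ_zero, Fin.val_zero, pow_zero, one_mul,
    add_zero, h2, Fin.val_succ, zero_add, pow_one, Pi.zero_apply]
  exact (congrArg₂ (· + ·) h3 (neg_one_mul _)).trans (add_neg_cancel _)

theorem delBar_del {J : V → V →L[ℝ] V} {x : V} (hJ : ContDiffAt ℝ ∞ J x) {φ : V → ℝ}
    (hφ : ContDiff ℝ ∞ φ) :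
    delBar J 1 (del J 0 (form0 φ)) x = (-1 : ℂ) • del J 0 (delBar J 0 (form0 φ)) x := by
  have h1 := extd_add ((sm_form0 hφ x).del hJ 0) ((sm_form0 hφ x).delBar hJ 0)
  rw [show (fun y => del J 0 (form0 φ) y + delBar J 0 (form0 φ) y) = extd (form0 φ) from
    funext fun y => proj_split _ _, extd_extd hφ] at h1
  rw [neg_one_smul, eq_neg_iff_add_eq_zero]
  exact (proj_add _ _ _ _).symm.trans ((congrArg _ h1.symm).trans (proj_zero _ _))

/-- The density of the five-term current after integration by parts. -/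
def dens (e : Fin 4 → V) (J : V → V →L[ℝ] V) (φ : V → ℝ) (P Q : V →L[ℝ] ℝ) (x : V) : ℂ :=
  wedge (del J 0 (delBar J 0 (form0 φ)) x) (wedge (d10 (J x) P) (d01 (J x) Q)) e
    - wedge (del J 0 (form0 φ) x) (wedge (d10 (J x) P) (thetaBar J 0 (d10 (J x) Q) x)) e
    - wedge (delBar J 0 (form0 φ) x) (wedge (theta J 0 (d01 (J x) P) x) (d01 (J x) Q)) e
    + (φ x : ℂ) *
      (wedge (theta J 0 (thetaBar J 0 (d10 (J x) P) x) x) (d01 (J x) Q) e
        - wedge (theta J 0 (d01 (J x) P) x) (thetaBar J 0 (d10 (J x) Q) x) e)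

end Point

section Int

variable {k l : ℕ}

theorem int_quad {U K : Set E} (hU : IsOpen U) (hK : IsCompact K) (hKU : K ⊆ U)
    {F : E × (E →L[ℝ] ℝ) → ℂ} (h1 : ∀ q : E × (E →L[ℝ] ℝ), q.1 ∈ U → ContinuousAt F q)
    (h2 : ∀ (y : E) (t : ℝ) (P : E →L[ℝ] ℝ), F (y, t • P) = (t : ℂ) * t * F (y, P))
    (h3 : ∀ y ∉ K, ∀ P, F (y, P) = 0) {G : E → E →L[ℝ] ℝ} (hG : MemLp G 2 (volume.restrict K)) :
    IntegrableOn (fun y => F (y, G y)) U := by
  have hc : Continuous F := continuous_iff_continuousAt.2 fun q => by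
    by_cases hq : q.1 ∈ U
    · exact h1 q hq
    · refine (continuousAt_const (y := (0 : ℂ))).congr ?_
      filter_upwards [(hK.isClosed.isOpen_compl.preimage continuous_fst).mem_nhds
        (mt (@hKU _) hq)] with r hr using (h3 r.1 hr r.2).symm
  obtain ⟨C, hC⟩ := (hK.prod (isCompact_closedBall (0 : E →L[ℝ] ℝ) 1)).exists_bound_of_continuousOn
    hc.continuousOn
  have hb : ∀ y ∈ K, ∀ P, ‖F (y, P)‖ ≤ C * ‖P‖ ^ 2 := fun y hy P => by
    by_cases hP : P = 0
    · have := h2 y 0 P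
      simp only [zero_smul, Complex.ofReal_zero, mul_zero, zero_mul] at this
      simp [hP, this]
    · have h0 : ‖P‖ ≠ 0 := norm_ne_zero_iff.2 hP
      have h4 := h2 y ‖P‖ (‖P‖⁻¹ • P)
      rw [smul_inv_smul₀ h0] at h4
      have h5 := hC (y, ‖P‖⁻¹ • P) ⟨hy, by simp [norm_smul, h0]⟩
      rw [h4, norm_mul, norm_mul, Complex.norm_real, norm_norm, mul_comm, ← sq]
      exact mul_le_mul_of_nonneg_right h5 (sq_nonneg _)
  refine IntegrableOn.of_forall_sdiff_eq_zero (s := K) ?_ hU.measurableSet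
    fun y hy => h3 y hy.2 _
  refine Integrable.mono' (((memLp_two_iff_integrable_sq_norm hG.1).1 hG).const_mul C)
    (hc.comp_aestronglyMeasurable (aestronglyMeasurable_id.prodMk hG.1)) ?_
  exact (ae_restrict_mem hK.measurableSet).mono fun y hy => hb y hy _

theorem orient_meas {U : Set E} (hU : IsOpen U) {J : E → E →L[ℝ] E}
    (hJ : ∀ y ∈ U, ContDiffAt ℝ ∞ J y) (e : Fin 4 → E) (c : Fin 4 → E →L[ℝ] ℝ) :
    AEStronglyMeasurable (fun y => (orient e c (J y) : ℂ)) (volume.restrict U) := by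
  have h0 : ∀ y ∈ U, Sm (fun y => kahler c (J y)) y := fun y hy v => by
    simp only [kahler, Finset.sum_apply]
    exact ContDiffAt.sum fun i _ => (((sm_d10 contDiffAt_const (hJ y hy)).wedge
      (sm_d01 contDiffAt_const (hJ y hy))).smul Complex.I) v
  have h1 : ContinuousOn (fun y => (wedge (kahler c (J y)) (kahler c (J y)) e).re) U :=
    fun y hy => (Complex.continuous_re.continuousAt.comp
      (((h0 y hy).wedge (h0 y hy)).diff e).continuousAt).continuousWithinAt
  have h2 : Measurable fun t : ℝ => (((SignType.sign t : SignType) : ℝ) : ℂ) := by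
    have : (fun t : ℝ => (((SignType.sign t : SignType) : ℝ) : ℂ)) =
        fun t => if 0 < t then 1 else if t < 0 then -1 else 0 := by
      funext t
      rw [sign_apply]
      split_ifs <;> simp
    rw [this]
    exact Measurable.ite measurableSet_Ioi measurable_const
      (Measurable.ite measurableSet_Iio measurable_const measurable_const)
  exact (h2.comp_aemeasurable (h1.aemeasurable hU.measurableSet)).aestronglyMeasurable

theorem int_cur {U K : Set E} (hU : IsOpen U) (hK : IsCompact K) (hKU : K ⊆ U) {o : E → ℝ}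
    (ho : AEStronglyMeasurable (fun y => (o y : ℂ)) (volume.restrict U)) (ho' : ∀ y, |o y| ≤ 1)
    {G : E → E →L[ℝ] ℝ} (hG : MemLp G 2 (volume.restrict K))
    (T : E × (E →L[ℝ] ℝ) → Form E k) (ψ : E → Form E l) (e : Fin (k + l) → E)
    (h1 : ∀ q : E × (E →L[ℝ] ℝ), q.1 ∈ U → Sm T q)
    (h2 : ∀ (y : E) (t : ℝ) (P : E →L[ℝ] ℝ), T (y, t • P) = (t : ℂ) • (t : ℂ) • T (y, P))
    (h3 : ∀ y ∈ U, Sm ψ y) (h4 : ∀ y ∉ K, ψ y = 0) :
    IntegrableOn (fun y => (o y : ℂ) * wedge (T (y, G y)) (ψ y) e) U := by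
  refine Integrable.bdd_mul (c := 1) (int_quad (F := fun q => wedge (T q) (ψ q.1) e) hU hK hKU
    (fun q hq => ?_) (fun y t P => ?_) (fun y hy P => ?_) hG) ho
    (Eventually.of_forall fun y => by simpa using ho' y)
  · exact (Sm.app (g := id) (w := fun _ => e)
      ((h1 q hq).wedge (Sm.comp (g := Prod.fst) (h3 _ hq) contDiffAt_fst)) contDiffAt_id
      fun _ => contDiffAt_const).continuousAt
  · simp only [h2, wedge_smul_left, Pi.smul_apply, smul_eq_mul, mul_assoc]
  · simp only [h4 y hy, wedge_zero_right, Pi.zero_apply]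

theorem five {μ : Measure E} {f₁ f₂ f₃ f₄ f₅ : E → ℂ} (h₁ : Integrable f₁ μ) (h₂ : Integrable f₂ μ)
    (h₃ : Integrable f₃ μ) (h₄ : Integrable f₄ μ) (h₅ : Integrable f₅ μ) :
    (Complex.I * ∫ y, f₁ y ∂μ + ∫ y, f₂ y ∂μ + ∫ y, f₃ y ∂μ + ∫ y, f₄ y ∂μ - ∫ y, f₅ y ∂μ).re =
      ∫ y, (Complex.I * f₁ y + f₂ y + f₃ y + f₄ y - f₅ y).re ∂μ := by
  have h := h₁.const_mul Complex.I
  rw [← integral_const_mul, ← integral_add' h h₂, ← integral_add' (h.add h₂) h₃,
    ← integral_add' ((h.add h₂).add h₃) h₄, ← integral_sub' (((h.add h₂).add h₃).add h₄) h₅]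
  exact (integral_re ((((h.add h₂).add h₃).add h₄).sub h₅)).symm

theorem maCurrent_eq {U : Set E} (hU : IsOpen U) {J : E → E →L[ℝ] E}
    (hJ : ∀ y ∈ U, ContDiffAt ℝ ∞ J y) (e : Fin 4 → E) (c : Fin 4 → E →L[ℝ] ℝ) {φ : E → ℝ}
    (hφ : IsTest U φ) {G : E → E →L[ℝ] ℝ} (hG : MemLp G 2 (volume.restrict (tsupport φ))) :
    (maCurrent volume e c J U G G (form0 φ)).re =
      ∫ y in U, orient e c (J y) * (dens e J φ (G y) (G y) y).re := by
  have ho' : ∀ y, |orient e c (J y)| ≤ 1 := fun y => by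
    rw [orient, sign_apply]
    split_ifs <;> simp
  have I := fun {k l : ℕ} => int_cur (k := k) (l := l) hU hφ.2.1 hφ.2.2 (orient_meas hU hJ e c) ho' hG
  have z : ∀ y ∉ tsupport φ, ∀ᶠ x in 𝓝 y, form0 φ x = 0 := fun y hy =>
    (notMem_tsupport_iff_eventuallyEq.1 hy).mono fun x hx => by
      funext v
      simp [form0, hx]
  have s0 := sm_form0 hφ.1
  have j : ∀ q : E × (E →L[ℝ] ℝ), q.1 ∈ U → ContDiffAt ℝ ∞ (fun q : E × (E →L[ℝ] ℝ) => J q.1) q :=
    fun q hq => (hJ _ hq).comp q contDiffAt_fst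
  have a := fun q hq => sm_d10 contDiffAt_snd (j q hq)
  have b := fun q hq => sm_d01 contDiffAt_snd (j q hq)
  have ta := fun q hq => (a q hq).thetaBar (hJ _ hq) contDiffAt_fst 0
  have tb := fun q hq => (b q hq).theta (hJ _ hq) contDiffAt_fst 0
  have i1 := I (fun q => Complex.I • wedge (d10 (J q.1) q.2) (d01 (J q.1) q.2))
    (delBar J 1 (del J 0 (form0 φ))) e (fun q hq => ((a q hq).wedge (b q hq)).smul _)
    (fun y t P => by
      simp only [d10_smul, d01_smul, wedge_smul_left, wedge_smul_right, smul_comm Complex.I])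
    (fun y hy => ((s0 y).del (hJ y hy) 0).delBar (hJ y hy) 1)
    fun y hy => (delBar_zero J 1 (del_zero J 0 (z y hy))).self_of_nhds
  have i2 := I (fun q => wedge (d10 (J q.1) q.2) (thetaBar J 0 (d10 (J q.1) q.2) q.1))
    (del J 0 (form0 φ)) e (fun q hq => (a q hq).wedge (ta q hq))
    (fun y t P => by simp only [d10_smul, thetaBar_smul, wedge_smul_left, wedge_smul_right])
    (fun y hy => (s0 y).del (hJ y hy) 0) fun y hy => (del_zero J 0 (z y hy)).self_of_nhds
  have i3 := I (fun q => wedge (theta J 0 (d01 (J q.1) q.2) q.1) (d01 (J q.1) q.2))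
    (delBar J 0 (form0 φ)) e (fun q hq => (tb q hq).wedge (b q hq))
    (fun y t P => by simp only [d01_smul, theta_smul, wedge_smul_left, wedge_smul_right])
    (fun y hy => (s0 y).delBar (hJ y hy) 0) fun y hy => (delBar_zero J 0 (z y hy)).self_of_nhds
  have i4 := I (fun q => wedge (theta J 0 (thetaBar J 0 (d10 (J q.1) q.2) q.1) q.1)
      (d01 (J q.1) q.2)) (form0 φ) e
    (fun q hq => ((ta q hq).theta (hJ _ hq) contDiffAt_fst 0).wedge (b q hq))
    (fun y t P => by
      simp only [d10_smul, d01_smul, theta_smul, thetaBar_smul, wedge_smul_left, wedge_smul_right])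
    (fun y _ => s0 y) fun y hy => (z y hy).self_of_nhds
  have i5 := I (fun q => wedge (theta J 0 (d01 (J q.1) q.2) q.1)
      (thetaBar J 0 (d10 (J q.1) q.2) q.1)) (form0 φ) e (fun q hq => (tb q hq).wedge (ta q hq))
    (fun y t P => by
      simp only [d10_smul, d01_smul, theta_smul, thetaBar_smul, wedge_smul_left, wedge_smul_right])
    (fun y _ => s0 y) fun y hy => (z y hy).self_of_nhds
  refine Eq.trans (congrArg Complex.re ?_) ((five i1 i2 i3 i4 i5).trans ?_)
  · simp only [maCurrent, curDel, curDelBar, current, Pi.add_apply, Pi.sub_apply, Pi.smul_apply,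
      smul_eq_mul]
    norm_num
  refine setIntegral_congr_fun hU.measurableSet fun y hy => ?_
  dsimp only
  rw [← Complex.re_ofReal_mul, delBar_del (hJ y hy) hφ.1, wedge_smul_left, wedge_smul_right,
    wedge_comm31, wedge_comm31, wedge_top, wedge_top, dens]
  simp only [Pi.smul_apply, smul_eq_mul, form0]
  congr 1
  linear_combination (-(orient e c (J y) : ℂ) * wedge (del J 0 (delBar J 0 (form0 φ)) y)
    (wedge (d10 (J y) (G y)) (d01 (J y) (G y))) e) * Complex.I_sq -
    Complex.I ^ 2 * (orient e c (J y) : ℂ) * wedge_comm22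
      (wedge (d10 (J y) (G y)) (d01 (J y) (G y))) (del J 0 (delBar J 0 (form0 φ)) y) e

end Int

end Pool.Agent.MP_13e7a1_an.Cur
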