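import Mathlib

/-!
Definitions for the domination principle on almost complex surfaces.
-/

open scoped Manifold ContDiff Topology
open Set Metric MeasureTheory

noncomputable section

namespace Pool.Agent.MP_13e7a1_an.Cur

/-- The model space `ℝ⁴`. -/
abbrev E := EuclideanSpace ℝ (Fin 4)

/-- The standard basis of `ℝ⁴`. -/
def bas (i : Fin 4) : E := EuclideanSpace.single i 1

/-! ### Complex valued forms in a chart (on a real normed space `V`, used with `V = ℝ⁴`) -/

/-- A complex valued `k`-form at a point, given by its values on `k` tangent vectors. -/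
abbrev Form (V : Type) (k : ℕ) := (Fin k → V) → ℂ

/-- The wedge product. -/
def wedge {V : Type} {k l : ℕ} (α : Form V k) (β : Form V l) : Form V (k + l) := fun v =>
  (∑ σ : Equiv.Perm (Fin (k + l)), ((Equiv.Perm.sign σ : ℤ) : ℂ) *
    α (fun i => v (σ (Fin.castAdd l i))) * β (fun j => v (σ (Fin.natAdd k j)))) /
    ((k.factorial : ℂ) * (l.factorial : ℂ))

/-- A real function as a field of `0`-forms. -/
def form0 {V : Type} (φ : V → ℝ) (y : V) : Form V 0 := fun _ => (φ y : ℂ)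

section Forms

variable {V : Type} [NormedAddCommGroup V] [NormedSpace ℝ V]

/-- The part of bidegree `(p, k - p)` of a `k`-form for the complex structure `A`: put
`(1 - iA)/2` in `p` of the slots and `(1 + iA)/2` in the others, and expand. -/
def proj (A : V →L[ℝ] V) {k : ℕ} (p : ℕ) (α : Form V k) : Form V k := fun v =>
  ∑ S ∈ Finset.powersetCard p (Finset.univ : Finset (Fin k)), ∑ T : Finset (Fin k),
    (∏ m ∈ T, if m ∈ S then -Complex.I else Complex.I) / 2 ^ k *
      α (fun m => if m ∈ T then A (v m) else v m)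

/-- The exterior derivative at `x` of a field of `k`-forms. -/
def extd {k : ℕ} (α : V → Form V k) (x : V) : Form V (k + 1) := fun v =>
  ∑ j : Fin (k + 1), (-1) ^ (j : ℕ) * fderiv ℝ (fun y => α y (j.removeNth v)) x (v j)

/-- `∂`: the part of bidegree `(p + 1, q)` of `dα`, for a field `α` of bidegree `(p, q)`. -/
def del (J : V → V →L[ℝ] V) {k : ℕ} (p : ℕ) (α : V → Form V k) (x : V) : Form V (k + 1) :=
  proj (J x) (p + 1) (extd α x)

/-- `∂̄`: the part of bidegree `(p, q + 1)` of `dα`, for a field `α` of bidegree `(p, q)`. -/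
def delBar (J : V → V →L[ℝ] V) {k : ℕ} (p : ℕ) (α : V → Form V k) (x : V) : Form V (k + 1) :=
  proj (J x) p (extd α x)

/-- `θ` at `x` on a form `α` of bidegree `(p, q)` at `x`. The operator `θ` has order zero, so it is
computed on the extension `y ↦ Π^{p,q}_y α`: `-θ` is the part of bidegree `(p + 2, q - 1)` of `d`. -/
def theta (J : V → V →L[ℝ] V) {k : ℕ} (p : ℕ) (α : Form V k) (x : V) : Form V (k + 1) :=
  -proj (J x) (p + 2) (extd (fun y => proj (J y) p α) x)

/-- `θ̄` at `x` on a form `α` of bidegree `(p + 1, q)` at `x`: `-θ̄` is the part of bidegree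
`(p, q + 2)` of `d`. -/
def thetaBar (J : V → V →L[ℝ] V) {k : ℕ} (p : ℕ) (α : Form V k) (x : V) : Form V (k + 1) :=
  -proj (J x) p (extd (fun y => proj (J y) (p + 1) α) x)

/-- A real covector as a `1`-form. -/
def form1 (P : V →L[ℝ] ℝ) : Form V 1 := fun v => (P (v 0) : ℂ)

/-- `∂u` at a point with complex structure `A` where `du = P`. -/
def d10 (A : V →L[ℝ] V) (P : V →L[ℝ] ℝ) : Form V 1 := proj A 1 (form1 P)

/-- `∂̄u` at a point with complex structure `A` where `du = P`. -/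
def d01 (A : V →L[ℝ] V) (P : V →L[ℝ] ℝ) : Form V 1 := proj A 0 (form1 P)

/-- The positive `(1,1)`-form `∑ₖ i ∂yₖ ∧ ∂̄yₖ` built from linear coordinates `yₖ`. -/
def kahler (y : Fin 4 → V →L[ℝ] ℝ) (A : V →L[ℝ] V) : Form V 2 :=
  ∑ k : Fin 4, Complex.I • wedge (d10 A (y k)) (d01 A (y k))

/-- `1` if the basis `e` is positively oriented for the complex structure `A`, `-1` if it is
negatively oriented: the sign of the square of a positive `(1,1)`-form on the basis. -/
def orient (e : Fin 4 → V) (y : Fin 4 → V →L[ℝ] ℝ) (A : V →L[ℝ] V) : ℝ :=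
  SignType.sign (wedge (kahler y A) (kahler y A) e).re

end Forms

section Weak

variable {V : Type} [NormedAddCommGroup V] [NormedSpace ℝ V]

/-- Test functions on an open set `U`. -/
def IsTest (U : Set V) (φ : V → ℝ) : Prop :=
  ContDiff ℝ ∞ φ ∧ HasCompactSupport φ ∧ tsupport φ ⊆ U

/-- `G` is locally square integrable on `U` and is the distributional differential of `f` on `U`,
for the measure `μ`. -/
def IsWeakGrad [MeasurableSpace V] (μ : Measure V) (U : Set V) (f : V → ℝ) (G : V → V →L[ℝ] ℝ) :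
    Prop :=
  (∀ K : Set V, IsCompact K → K ⊆ U → MemLp G 2 (μ.restrict K)) ∧
    ∀ φ : V → ℝ, IsTest U φ → ∀ Z : V, ∫ y, f y * fderiv ℝ φ y Z ∂μ = -∫ y, G y Z * φ y ∂μ

/-- A current in a chart of a `4`-manifold, as a functional on test forms of degree `l`; its degree
is `4 - l`. -/
abbrev Current (V : Type) (l : ℕ) := (V → Form V l) → ℂ

/-- The current given by a field `T` of `k`-forms on `U`: `ψ ↦ ∫_U T ∧ ψ`. Here `e` is the standard
basis, `μ` the Lebesgue measure of the chart, and `o` the sign of the orientation of `e`. -/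
def current [MeasurableSpace V] (μ : Measure V) (o : V → ℝ) (U : Set V) {k l : ℕ}
    (T : V → Form V k) (e : Fin (k + l) → V) : Current V l :=
  fun ψ => ∫ y in U, (o y : ℂ) * wedge (T y) (ψ y) e ∂μ

/-- `∂T` on test forms of bidegree `(p, l - p)`: `(∂T)(ψ) = (-1)^(deg T + 1) T(∂ψ)`. -/
def curDel (J : V → V →L[ℝ] V) {l : ℕ} (p : ℕ) (T : Current V (l + 1)) : Current V l :=
  fun ψ => (-1) ^ (4 - (l + 1) + 1) * T (del J p ψ)

/-- `∂̄T` on test forms of bidegree `(p, l - p)`: `(∂̄T)(ψ) = (-1)^(deg T + 1) T(∂̄ψ)`. -/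
def curDelBar (J : V → V →L[ℝ] V) {l : ℕ} (p : ℕ) (T : Current V (l + 1)) : Current V l :=
  fun ψ => (-1) ^ (4 - (l + 1) + 1) * T (delBar J p ψ)

/-- The current `i∂∂̄u ∧ i∂∂̄v` on `U`, that is
`-i∂∂̄(i∂u∧∂̄v) + ∂(∂u∧θ̄∂v) + ∂̄(θ∂̄u∧∂̄v) + θθ̄∂u∧∂̄v - θ∂̄u∧θ̄∂v`, where `Gu`, `Gv` are the weak
differentials of `u`, `v`, with the orientation given by `J`. -/
def maCurrent [MeasurableSpace V] (μ : Measure V) (e : Fin 4 → V) (c : Fin 4 → V →L[ℝ] ℝ)
    (J : V → V →L[ℝ] V) (U : Set V) (Gu Gv : V → V →L[ℝ] ℝ) : Current V 0 :=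
  -Complex.I • curDel J 0 (curDelBar J 1 (current μ (fun y => orient e c (J y)) U
      (fun y => Complex.I • wedge (d10 (J y) (Gu y)) (d01 (J y) (Gv y))) e))
    + curDel J 0 (current μ (fun y => orient e c (J y)) U
      (fun y => wedge (d10 (J y) (Gu y)) (thetaBar J 0 (d10 (J y) (Gv y)) y)) e)
    + curDelBar J 0 (current μ (fun y => orient e c (J y)) U
      (fun y => wedge (theta J 0 (d01 (J y) (Gu y)) y) (d01 (J y) (Gv y))) e)
    + current μ (fun y => orient e c (J y)) U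
      (fun y => wedge (theta J 0 (thetaBar J 0 (d10 (J y) (Gu y)) y) y) (d01 (J y) (Gv y))) e
    - current μ (fun y => orient e c (J y)) U
      (fun y => wedge (theta J 0 (d01 (J y) (Gu y)) y) (thetaBar J 0 (d10 (J y) (Gv y)) y)) e

/-- For functions `u`, `v` on an open set `U` of a chart with the almost complex structure `J`: the
value of `(i∂∂̄v)²` on every nonnegative test function is at most the value of `(i∂∂̄u)²`. -/
def MAGeOn [MeasurableSpace V] (μ : Measure V) (e : Fin 4 → V) (c : Fin 4 → V →L[ℝ] ℝ)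
    (J : V → V →L[ℝ] V) (U : Set V) (u v : V → ℝ) : Prop :=
  ∀ Gu Gv : V → V →L[ℝ] ℝ, IsWeakGrad μ U u Gu → IsWeakGrad μ U v Gv →
    ∀ φ : V → ℝ, IsTest U φ → (∀ y, 0 ≤ φ y) →
      (maCurrent μ e c J U Gv Gv (form0 φ)).re ≤ (maCurrent μ e c J U Gu Gu (form0 φ)).re

end Weak

/-! ### Almost complex manifolds modelled on `V` (used with `V = ℝ⁴`) -/

section Manifold

variable (V : Type) [NormedAddCommGroup V] [NormedSpace ℝ V]

/-- Fields of endomorphisms of the tangent spaces. -/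
def End (M : Type*) [TopologicalSpace M] [ChartedSpace V M] :=
  ∀ x : M, TangentSpace 𝓘(ℝ, V) x →L[ℝ] TangentSpace 𝓘(ℝ, V) x

/-- The differential at `x` of a map between manifolds modelled on `V` and `W`. In Mathlib the
tangent spaces are the model spaces by definition. -/
def tang (W : Type) [NormedAddCommGroup W] [NormedSpace ℝ W] {M N : Type*} [TopologicalSpace M]
    [ChartedSpace V M] [TopologicalSpace N] [ChartedSpace W N] (f : M → N) (x : M) : V →L[ℝ] W :=
  mfderiv 𝓘(ℝ, V) 𝓘(ℝ, W) f x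

variable {V} {M : Type*} [TopologicalSpace M] [ChartedSpace V M]

/-- The value of `J` at `x`. -/
def End.val (J : End V M) (x : M) : V →L[ℝ] V := J x

/-- `J` read in the chart at `x₀`. -/
def chartJ (J : End V M) (x₀ : M) (y : V) : V →L[ℝ] V :=
  (tang V V (chartAt V x₀) ((chartAt V x₀).symm y)).comp
    ((J.val ((chartAt V x₀).symm y)).comp (tang V V (chartAt V x₀).symm y))

/-- `J² = -1` and `J` is smooth in the charts. -/
def IsAlmostComplex (J : End V M) : Prop :=
  (∀ (x : M) (v : V), J.val x (J.val x v) = -v) ∧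
    ∀ x₀ : M, ContDiffOn ℝ ∞ (chartJ J x₀) (chartAt V x₀).target

/-- A `J`-holomorphic map from the unit disc. -/
def IsDisc (J : End V M) (γ : ℂ → M) : Prop :=
  ContMDiffOn 𝓘(ℝ, ℂ) 𝓘(ℝ, V) ∞ γ (ball 0 1) ∧
    ∀ ζ ∈ ball (0 : ℂ) 1, ∀ w : ℂ, tang ℂ V γ ζ (Complex.I * w) = J.val (γ ζ) (tang ℂ V γ ζ w)

/-- A real function that is subharmonic on the unit disc: upper semicontinuous, with the
sub-mean-value inequality on every closed disc inside the unit disc. -/
def Subharm (f : ℂ → ℝ) : Prop :=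
  UpperSemicontinuousOn f (ball 0 1) ∧
    ∀ (z : ℂ) (r : ℝ), 0 < r → closedBall z r ⊆ ball 0 1 → f z ≤ Real.circleAverage f z r

/-- A real function that is plurisubharmonic on `Ω`. -/
def Psh (J : End V M) (Ω : Set M) (u : M → ℝ) : Prop :=
  UpperSemicontinuousOn u Ω ∧
    ∀ γ : ℂ → M, IsDisc J γ → MapsTo γ (ball 0 1) Ω → Subharm (u ∘ γ)

/-- Strictly plurisubharmonic on `Ω`. -/
def StrictPsh (J : End V M) (Ω : Set M) (u : M → ℝ) : Prop :=
  Psh J Ω u ∧ ∀ φ : M → ℝ, ContMDiff 𝓘(ℝ, V) 𝓘(ℝ, ℝ) ∞ φ → HasCompactSupport φ → tsupport φ ⊆ Ω →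
    ∃ ε₀ : ℝ, 0 < ε₀ ∧ ∀ ε : ℝ, 0 < ε → ε < ε₀ → Psh J Ω (fun x => u x + ε * φ x)

/-- A relatively compact strictly pseudoconvex domain. -/
def StrictlyPseudoconvex (J : End V M) (Ω : Set M) : Prop :=
  IsOpen Ω ∧ IsConnected Ω ∧ IsCompact (closure Ω) ∧
    ∃ (W : Set M) (ρ : M → ℝ), IsOpen W ∧ closure Ω ⊆ W ∧
      ContMDiffOn 𝓘(ℝ, V) 𝓘(ℝ, ℝ) ∞ ρ W ∧ StrictPsh J W ρ ∧ Ω = {x | x ∈ W ∧ ρ x < 0} ∧
      ∀ x ∈ frontier Ω, tang V ℝ ρ x ≠ 0

end Manifold

/-- `(i∂∂̄u)² ≥ (i∂∂̄v)²` on `Ω`: the inequality holds in every chart. -/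
def MAGe {M : Type*} [TopologicalSpace M] [ChartedSpace E M] (J : End E M) (Ω : Set M)
    (u v : M → ℝ) : Prop :=
  ∀ (x₀ : M) (U : Set E), IsOpen U → U ⊆ (chartAt E x₀).target →
    MapsTo (chartAt E x₀).symm U Ω →
      MAGeOn volume bas (fun k => EuclideanSpace.proj k) (chartJ J x₀) U
        (u ∘ (chartAt E x₀).symm) (v ∘ (chartAt E x₀).symm)

end Pool.Agent.MP_13e7a1_an.Cur
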