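import Pool.Agent.MP_13e7a1_an.Cur.Defs

/-!
Smooth families of forms, linearity of the operators, and integrability of the five terms.
-/

open scoped ContDiff Topology
open Set Metric MeasureTheory Filter

noncomputable section

namespace Pool.Agent.MP_13e7a1_an.Cur

section Alg

variable {V : Type} {k l : ℕ}

theorem wedge_smul_left (t : ℂ) (α : Form V k) (β : Form V l) :
    wedge (t • α) β = t • wedge α β := by
  funext v
  simp only [wedge, Pi.smul_apply, smul_eq_mul]
  rw [← mul_div_assoc, Finset.mul_sum]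
  exact congrArg (· / _) (Finset.sum_congr rfl fun σ _ => by ring)

theorem wedge_smul_right (t : ℂ) (α : Form V k) (β : Form V l) :
    wedge α (t • β) = t • wedge α β := by
  funext v
  simp only [wedge, Pi.smul_apply, smul_eq_mul]
  rw [← mul_div_assoc, Finset.mul_sum]
  exact congrArg (· / _) (Finset.sum_congr rfl fun σ _ => by ring)

theorem wedge_zero_right (α : Form V k) : wedge α (0 : Form V l) = 0 := by
  simpa using wedge_smul_right 0 α (0 : Form V l)

theorem wedge_perm (α : Form V k) (β : Form V l) (v : Fin (k + l) → V)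
    (τ : Equiv.Perm (Fin (k + l))) :
    ((Equiv.Perm.sign τ : ℤ) : ℂ) * wedge α β (fun i => v (τ i)) = wedge α β v := by
  simp only [wedge]
  rw [← mul_div_assoc, Finset.mul_sum]
  refine congrArg (· / _) (Fintype.sum_equiv (Equiv.mulLeft τ) _ _ fun σ => ?_)
  simp only [Equiv.coe_mulLeft, map_mul, Units.val_mul, Int.cast_mul, Equiv.Perm.mul_apply]
  ring

theorem wedge_top {a b : ℕ} (α : Form V a) (β : Form V b) (f : Form V 0) (v : Fin (a + b) → V) :
    wedge (wedge α β) f v = f (fun i => i.elim0) * wedge α β v := by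
  have h : ∀ σ : Equiv.Perm (Fin (a + b + 0)), ((Equiv.Perm.sign σ : ℤ) : ℂ) *
      wedge α β (fun i => v (σ (Fin.castAdd 0 i))) * f (fun j => v (σ (Fin.natAdd (a + b) j))) =
      f (fun i => i.elim0) * wedge α β v := fun σ => by
    rw [show (fun j => v (σ (Fin.natAdd (a + b) j))) = fun i : Fin 0 => i.elim0 from
      Subsingleton.elim _ _, mul_comm, ← wedge_perm α β v σ]
    rfl
  rw [wedge, Finset.sum_congr rfl fun σ _ => h σ, Finset.sum_const, Finset.card_univ,
    Fintype.card_perm, Fintype.card_fin, nsmul_eq_mul]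
  have : ((a + b).factorial : ℂ) ≠ 0 := Nat.cast_ne_zero.2 (Nat.factorial_ne_zero _)
  simp only [Nat.add_zero, Nat.factorial_zero, Nat.cast_one]
  field_simp

theorem wedge_comm22 (α β : Form V 2) (e : Fin 4 → V) : wedge α β e = wedge β α e := by
  let τ : Equiv.Perm (Fin (2 + 2)) := Equiv.swap 0 2 * Equiv.swap 1 3
  have hs : Equiv.Perm.sign τ = 1 := by decide
  have h1 : ∀ i, τ (Fin.castAdd 2 i) = Fin.natAdd 2 i := by decide
  have h2 : ∀ i, τ (Fin.natAdd 2 i) = Fin.castAdd 2 i := by decide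
  simp only [wedge]
  refine congrArg (· / _) (Fintype.sum_equiv (Equiv.mulRight τ) _ _ fun σ => ?_)
  simp only [Equiv.coe_mulRight, map_mul, hs, mul_one, Equiv.Perm.mul_apply, h1, h2]
  ring

theorem wedge_comm31 (α : Form V 3) (β : Form V 1) (e : Fin 4 → V) :
    wedge α β e = -wedge β α e := by
  let τ : Equiv.Perm (Fin 4) := Equiv.swap 0 1 * Equiv.swap 0 2 * Equiv.swap 0 3
  have hs : Equiv.Perm.sign τ = -1 := by decide
  have h1 : ∀ i : Fin 1, τ (Fin.castAdd 3 i) = Fin.natAdd 3 i := by decide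
  have h2 : ∀ i : Fin 3, τ (Fin.natAdd 1 i) = Fin.castAdd 1 i := by decide
  simp only [wedge]
  rw [← neg_div, ← Finset.sum_neg_distrib, mul_comm ((Nat.factorial 1 : ℕ) : ℂ)]
  refine congrArg (· / _) (Fintype.sum_equiv (Equiv.mulRight τ) _ _ fun σ => ?_)
  simp only [Equiv.coe_mulRight, map_mul, hs, Equiv.Perm.mul_apply, h1, h2]
  simp only [mul_neg, mul_one, Units.val_neg, Int.cast_neg]
  ring

variable [NormedAddCommGroup V] [NormedSpace ℝ V]

theorem proj_smul (A : V →L[ℝ] V) (p : ℕ) (t : ℂ) (α : Form V k) :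
    proj A p (t • α) = t • proj A p α := by
  funext v
  simp only [proj, Pi.smul_apply, smul_eq_mul, Finset.mul_sum]
  exact Finset.sum_congr rfl fun S _ => Finset.sum_congr rfl fun T _ => by ring

theorem proj_zero (A : V →L[ℝ] V) (p : ℕ) : proj A p (0 : Form V k) = 0 := by
  simpa using proj_smul A p 0 (0 : Form V k)

theorem extd_smul (t : ℂ) (α : V → Form V k) (x : V) :
    extd (fun y => t • α y) x = t • extd α x := by
  funext v
  simp only [extd, Pi.smul_apply, smul_eq_mul, Finset.mul_sum]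
  refine Finset.sum_congr rfl fun j _ => ?_
  have h := congrFun (fderiv_const_smul_field (𝕜 := ℝ) (f := fun y => α y (j.removeNth v)) t) x
  rw [show (fun y => t * α y (j.removeNth v)) = t • fun y => α y (j.removeNth v) from rfl, h]
  simp only [Pi.smul_apply, smul_apply, smul_eq_mul]
  ring

theorem extd_zero {α : V → Form V k} {x : V} (h : ∀ᶠ y in 𝓝 x, α y = 0) : extd α x = 0 := by
  funext v
  refine Finset.sum_eq_zero fun j _ => ?_
  have h1 : (fun y => α y (j.removeNth v)) =ᶠ[𝓝 x] fun _ => 0 :=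
    h.mono fun y hy => by simp only [hy, Pi.zero_apply]
  rw [h1.fderiv_eq]
  simp

theorem theta_smul (J : V → V →L[ℝ] V) (p : ℕ) (t : ℂ) (α : Form V k) (x : V) :
    theta J p (t • α) x = t • theta J p α x := by
  simp only [theta, proj_smul, extd_smul, smul_neg]

theorem thetaBar_smul (J : V → V →L[ℝ] V) (p : ℕ) (t : ℂ) (α : Form V k) (x : V) :
    thetaBar J p (t • α) x = t • thetaBar J p α x := by
  simp only [thetaBar, proj_smul, extd_smul, smul_neg]

theorem form1_smul (t : ℝ) (P : V →L[ℝ] ℝ) : form1 (t • P) = (t : ℂ) • form1 P := by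
  funext v
  simp [form1]

theorem d10_smul (A : V →L[ℝ] V) (t : ℝ) (P : V →L[ℝ] ℝ) : d10 A (t • P) = (t : ℂ) • d10 A P := by
  rw [d10, form1_smul, proj_smul, d10]

theorem d01_smul (A : V →L[ℝ] V) (t : ℝ) (P : V →L[ℝ] ℝ) : d01 A (t • P) = (t : ℂ) • d01 A P := by
  rw [d01, form1_smul, proj_smul, d01]

theorem del_zero (J : V → V →L[ℝ] V) (p : ℕ) {α : V → Form V k} {x : V}
    (h : ∀ᶠ y in 𝓝 x, α y = 0) : ∀ᶠ y in 𝓝 x, del J p α y = 0 :=
  h.eventually_nhds.mono fun y hy => by rw [del, extd_zero hy, proj_zero]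

theorem delBar_zero (J : V → V →L[ℝ] V) (p : ℕ) {α : V → Form V k} {x : V}
    (h : ∀ᶠ y in 𝓝 x, α y = 0) : ∀ᶠ y in 𝓝 x, delBar J p α y = 0 :=
  h.eventually_nhds.mono fun y hy => by rw [delBar, extd_zero hy, proj_zero]

end Alg

section Sm

variable {V X Y : Type} [NormedAddCommGroup V] [NormedSpace ℝ V] [NormedAddCommGroup X]
  [NormedSpace ℝ X] [NormedAddCommGroup Y] [NormedSpace ℝ Y] {k l : ℕ}

/-- A family of forms that is smooth at `x`, jointly with the vectors. -/
def Sm (α : X → Form V k) (x : X) : Prop :=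
  ∀ v, ContDiffAt ℝ ∞ (fun q : X × (Fin k → V) => α q.1 q.2) (x, v)

theorem Sm.app {α : X → Form V k} {g : Y → X} {w : Y → Fin k → V} {y : Y} (h : Sm α (g y))
    (hg : ContDiffAt ℝ ∞ g y) (hw : ∀ i, ContDiffAt ℝ ∞ (fun z => w z i) y) :
    ContDiffAt ℝ ∞ (fun z => α (g z) (w z)) y :=
  ContDiffAt.comp (g := fun q : X × (Fin k → V) => α q.1 q.2) (f := fun z => (g z, w z)) y
    (h (w y)) (hg.prodMk (contDiffAt_pi.2 hw))

theorem cd_snd (x : X) (v : Fin k → V) (i : Fin k) :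
    ContDiffAt ℝ ∞ (fun q : X × (Fin k → V) => q.2 i) (x, v) :=
  contDiffAt_pi.1 contDiffAt_snd i

theorem Sm.comp {α : X → Form V k} {g : Y → X} {y : Y} (h : Sm α (g y))
    (hg : ContDiffAt ℝ ∞ g y) : Sm (fun z => α (g z)) y := fun v =>
  Sm.app (g := fun q : Y × (Fin k → V) => g q.1) h (hg.comp (y, v) contDiffAt_fst) (cd_snd y v)

theorem Sm.smul {α : X → Form V k} {x : X} (h : Sm α x) (t : ℂ) : Sm (fun z => t • α z) x :=
  fun v => contDiffAt_const.mul (h v)

theorem Sm.neg {α : X → Form V k} {x : X} (h : Sm α x) : Sm (fun z => -α z) x :=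
  fun v => (h v).neg

theorem Sm.wedge {α : X → Form V k} {β : X → Form V l} {x : X} (hα : Sm α x) (hβ : Sm β x) :
    Sm (fun z => wedge (α z) (β z)) x := fun v =>
  (ContDiffAt.sum fun _ _ => (contDiffAt_const.mul
    (Sm.app (g := Prod.fst) hα contDiffAt_fst fun _ => cd_snd x v _)).mul
    (Sm.app (g := Prod.fst) hβ contDiffAt_fst fun _ => cd_snd x v _)).div_const _

theorem Sm.proj {α : X → Form V k} {A : X → V →L[ℝ] V} {x : X} (hα : Sm α x)
    (hA : ContDiffAt ℝ ∞ A x) (p : ℕ) : Sm (fun z => proj (A z) p (α z)) x := fun v =>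
  ContDiffAt.sum fun S _ => ContDiffAt.sum fun T _ => contDiffAt_const.mul
    (Sm.app (g := Prod.fst) hα contDiffAt_fst fun i => by
      by_cases hi : i ∈ T
      · simp only [hi, if_true]
        exact (hA.comp (x, v) contDiffAt_fst).clm_apply (cd_snd x v i)
      · simp only [hi, if_false]
        exact cd_snd x v i)

theorem Sm.extd {α : X → V → Form V k} {g : X → V} {x : X}
    (hα : Sm (fun q : X × V => α q.1 q.2) (x, g x)) (hg : ContDiffAt ℝ ∞ g x) :
    Sm (fun z => extd (α z) (g z)) x := fun v =>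
  ContDiffAt.sum fun j _ => contDiffAt_const.mul (by
    refine ContDiffAt.clm_apply (ContDiffAt.fderiv (n := ∞)
      (f := fun (q : X × (Fin (k + 1) → V)) (y : V) => α q.1 y (j.removeNth q.2))
      (g := fun q => g q.1) ?_ (hg.comp (x, v) contDiffAt_fst) le_rfl) (cd_snd x v j)
    exact Sm.app (α := fun q : X × V => α q.1 q.2)
      (g := fun r : (X × (Fin (k + 1) → V)) × V => (r.1.1, r.2))
      (w := fun r => j.removeNth r.1.2) hα
      ((contDiffAt_fst.comp _ contDiffAt_fst).prodMk contDiffAt_snd)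
      fun i => (cd_snd x v _).comp ((x, v), g x) contDiffAt_fst)

theorem Sm.extd' {α : V → Form V k} {x : V} (hα : Sm α x) : Sm (Cur.extd α) x :=
  Sm.extd (α := fun _ => α) (g := id) (Sm.comp (g := Prod.snd) hα contDiffAt_snd) contDiffAt_id

theorem Sm.del {α : V → Form V k} {J : V → V →L[ℝ] V} {x : V} (hα : Sm α x)
    (hJ : ContDiffAt ℝ ∞ J x) (p : ℕ) : Sm (del J p α) x := hα.extd'.proj hJ _

theorem Sm.delBar {α : V → Form V k} {J : V → V →L[ℝ] V} {x : V} (hα : Sm α x)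
    (hJ : ContDiffAt ℝ ∞ J x) (p : ℕ) : Sm (delBar J p α) x := hα.extd'.proj hJ _

theorem Sm.tor {α : X → Form V k} {J : V → V →L[ℝ] V} {g : X → V} {x : X} (hα : Sm α x)
    (hJ : ContDiffAt ℝ ∞ J (g x)) (hg : ContDiffAt ℝ ∞ g x) (p r : ℕ) :
    Sm (fun z => -Cur.proj (J (g z)) r (Cur.extd (fun y => Cur.proj (J y) p (α z)) (g z))) x :=
  ((Sm.extd (α := fun z y => Cur.proj (J y) p (α z))
    ((Sm.comp (g := Prod.fst) hα contDiffAt_fst).proj (hJ.comp (x, g x) contDiffAt_snd) p)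
    hg).proj (hJ.comp x hg) r).neg

theorem Sm.theta {α : X → Form V k} {J : V → V →L[ℝ] V} {g : X → V} {x : X} (hα : Sm α x)
    (hJ : ContDiffAt ℝ ∞ J (g x)) (hg : ContDiffAt ℝ ∞ g x) (p : ℕ) :
    Sm (fun z => theta J p (α z) (g z)) x := hα.tor hJ hg _ _

theorem Sm.thetaBar {α : X → Form V k} {J : V → V →L[ℝ] V} {g : X → V} {x : X} (hα : Sm α x)
    (hJ : ContDiffAt ℝ ∞ J (g x)) (hg : ContDiffAt ℝ ∞ g x) (p : ℕ) :
    Sm (fun z => thetaBar J p (α z) (g z)) x := hα.tor hJ hg _ _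

theorem sm_form0 {φ : V → ℝ} (hφ : ContDiff ℝ ∞ φ) (x : V) : Sm (form0 φ) x := fun _ =>
  (Complex.ofRealCLM.contDiff.comp (hφ.comp contDiff_fst)).contDiffAt

theorem sm_form1 {P : X → V →L[ℝ] ℝ} {x : X} (hP : ContDiffAt ℝ ∞ P x) :
    Sm (fun z => form1 (P z)) x := fun v =>
  Complex.ofRealCLM.contDiff.contDiffAt.comp (x, v)
    ((hP.comp (x, v) contDiffAt_fst).clm_apply (cd_snd x v 0))

theorem sm_d10 {P : X → V →L[ℝ] ℝ} {A : X → V →L[ℝ] V} {x : X} (hP : ContDiffAt ℝ ∞ P x)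
    (hA : ContDiffAt ℝ ∞ A x) : Sm (fun z => d10 (A z) (P z)) x := (sm_form1 hP).proj hA _

theorem sm_d01 {P : X → V →L[ℝ] ℝ} {A : X → V →L[ℝ] V} {x : X} (hP : ContDiffAt ℝ ∞ P x)
    (hA : ContDiffAt ℝ ∞ A x) : Sm (fun z => d01 (A z) (P z)) x := (sm_form1 hP).proj hA _

end Sm

end Pool.Agent.MP_13e7a1_an.Cur
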